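import Mathlib

/-!
# Oppermann's intervals: definitions
-/

set_option autoImplicit false

namespace Pool.Agent.V8H4.OP

/-- the primes `p` with `y < p ≤ y + h` -/
def primesIn (y h : ℕ) : Finset ℕ := (Finset.Ioc y (y + h)).filter Nat.Prime

/-- `p` is a term of an arithmetic progression of `k` primes of the interval `(y, y + h]` whose
common difference is at least `1` and at most `D` -/
def InProg (k : ℕ) (D : ℝ) (y h p : ℕ) : Prop :=
  ∃ a d : ℕ, 1 ≤ d ∧ (d : ℝ) ≤ D ∧ (∀ i < k, a + i * d ∈ primesIn y h) ∧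
    ∃ i < k, p = a + i * d

end Pool.Agent.V8H4.OP
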