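import Pool.Agent.Q240.KS.Stm2
import Pool.Agent.V8H4.OP.Defs

/-!
# Few poor intervals next to squares

From the bound for the number of poor intervals (`Pool.Agent.Q240.KS.MAINP`): for all but `N ^ 0.612` of the
integers `n ≤ N` every subinterval of `[n ^ 2 - n, n ^ 2 + n]` of length `n ^ (1 - η)` has many primes.
-/

set_option autoImplicit false

open Finset Filter

namespace Pool.Agent.V8H4.OP

open Pool.Agent.Q240.KS

/-- adjacent pieces -/
theorem pieces (y h : ℕ) (h₁ K : ℝ) (hh₁ : 0 < h₁) : ∀ m : ℕ, (m : ℝ) * h₁ ≤ h →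
    (∀ i < m, K ≤ pic (y + i * h₁) h₁) → (m : ℝ) * K ≤ (primesIn y h).card := by
  have key : ∀ m : ℕ, (∀ i < m, K ≤ pic (y + i * h₁) h₁) →
      (m : ℝ) * K ≤ ((Ioc y ⌊(y : ℝ) + m * h₁⌋₊).filter Nat.Prime).card := by
    intro m
    induction m with
    | zero => intro _; simp
    | succ m ih =>
      intro H
      have h1 := ih (fun i hi => H i (by omega))
      have h2 := H m (by omega)
      have h0 : (0 : ℝ) ≤ m := Nat.cast_nonneg _
      have h3 : y ≤ ⌊(y : ℝ) + m * h₁⌋₊ := by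
        apply Nat.le_floor
        have : (0 : ℝ) ≤ m * h₁ := by positivity
        linarith
      have h4 : ⌊(y : ℝ) + m * h₁⌋₊ ≤ ⌊(y : ℝ) + m * h₁ + h₁⌋₊ := Nat.floor_mono (by linarith)
      have h5 : (Ioc y ⌊(y : ℝ) + ((m + 1 : ℕ) : ℝ) * h₁⌋₊).filter Nat.Prime =
          (Ioc y ⌊(y : ℝ) + m * h₁⌋₊).filter Nat.Prime ∪
          (Ioc ⌊(y : ℝ) + m * h₁⌋₊ ⌊(y : ℝ) + m * h₁ + h₁⌋₊).filter Nat.Prime := by
        have e : (y : ℝ) + ((m + 1 : ℕ) : ℝ) * h₁ = (y : ℝ) + m * h₁ + h₁ := by push_cast; ring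
        rw [e, ← filter_union, Ioc_union_Ioc_eq_Ioc h3 h4]
      rw [h5, card_union_of_disjoint]
      · unfold pic at h2
        push_cast
        linarith
      · rw [disjoint_left]
        intro a ha hb
        rw [mem_filter, mem_Ioc] at ha hb
        omega
  intro m hm H
  refine (key m H).trans ?_
  have : (Ioc y ⌊(y : ℝ) + m * h₁⌋₊).filter Nat.Prime ⊆ primesIn y h := by
    unfold primesIn
    apply filter_subset_filter
    apply Ioc_subset_Ioc le_rfl
    have h1 : (y : ℝ) + m * h₁ ≤ ((y + h : ℕ) : ℝ) := by push_cast; linarith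
    exact Nat.floor_le_of_le h1
  exact_mod_cast card_le_card this

/-- `n` has a poor subinterval -/
def Poor (c η : ℝ) (n : ℕ) : Prop := ∃ y h : ℕ, (n : ℝ) ^ (1 - η) ≤ h ∧ n ^ 2 ≤ y + n ∧
  y + h ≤ n ^ 2 + n ∧ ((primesIn y h).card : ℝ) < c * (h / Real.log n)

theorem logs {n : ℕ} (hn : 12 ≤ n) {x : ℝ} (h1 : (n : ℝ) ^ 2 - n ≤ x) (h2 : x ≤ (n : ℝ) ^ 2 + n) :
    0 < x ∧ |Real.log x - 2 * Real.log n| ≤ 1 / 10 := by
  have hn' : (12 : ℝ) ≤ n := by exact_mod_cast hn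
  have hx : 0 < x := by nlinarith
  refine ⟨hx, ?_⟩
  have e : 2 * Real.log n = Real.log ((n : ℝ) ^ 2) := by rw [Real.log_pow]; push_cast; ring
  rw [e, ← Real.log_div hx.ne' (by positivity), abs_le]
  have hn2 : (0 : ℝ) < (n : ℝ) ^ 2 := by positivity
  constructor
  · rw [Real.le_log_iff_exp_le (by positivity), le_div_iff₀ hn2]
    have h3 : Real.exp (-(1 / 10)) ≤ 1 - 1 / 12 := by
      have h4 : (1 : ℝ) / (1 - 1 / 12) ≤ Real.exp (1 / 10) := by
        have := Real.add_one_le_exp (1 / 10 : ℝ)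
        norm_num at this ⊢
        linarith
      rw [Real.exp_neg, inv_le_comm₀ (Real.exp_pos _) (by norm_num)]
      simpa using h4
    calc Real.exp (-(1 / 10)) * (n : ℝ) ^ 2 ≤ (1 - 1 / 12) * (n : ℝ) ^ 2 := by gcongr
      _ ≤ (n : ℝ) ^ 2 - n := by nlinarith
      _ ≤ x := h1
  · rw [Real.log_le_iff_le_exp (by positivity), div_le_iff₀ hn2]
    have h3 : (1 : ℝ) + 1 / 12 ≤ Real.exp (1 / 10) := by
      have := Real.add_one_le_exp (1 / 10 : ℝ)
      norm_num at this ⊢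
      linarith
    calc x ≤ (n : ℝ) ^ 2 + n := h2
      _ ≤ (1 + 1 / 12) * (n : ℝ) ^ 2 := by nlinarith
      _ ≤ Real.exp (1 / 10) * (n : ℝ) ^ 2 := by gcongr

/-- a poor interval of the standard length -/
theorem poor_piece {c₀ η : ℝ} (hc₀ : 0 < c₀) (hη : 0 < η) (hη1 : η ≤ 1 / 10) :
    ∃ n₀ : ℕ, ∀ n : ℕ, n₀ ≤ n → ∀ Y : ℝ, |2 * Real.log n - Y| ≤ 3 / 10 → Poor (c₀ / 6) η n →
      ∃ x : ℝ, (n : ℝ) ^ 2 - n ≤ x ∧ x + Real.exp ((1 / 2 - η) * Y) ≤ (n : ℝ) ^ 2 + n ∧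
        (pic x (Real.exp ((1 / 2 - η) * Y)) : ℝ) < c₀ * Real.exp ((1 / 2 - η) * Y) / Y := by
  have hev : ∀ᶠ n : ℕ in atTop, (4 : ℝ) ≤ (n : ℝ) ^ η :=
    ((tendsto_rpow_atTop hη).comp tendsto_natCast_atTop_atTop).eventually_ge_atTop 4
  obtain ⟨n₁, hn₁⟩ := eventually_atTop.1 hev
  refine ⟨max n₁ 12, fun n hn Y hY ⟨y, h, hh, hy, hyh, hP⟩ => ?_⟩
  have hn12 : 12 ≤ n := (le_max_right _ _).trans hn
  have hn12' : (12 : ℝ) ≤ n := by exact_mod_cast hn12
  have hn4 := hn₁ n ((le_max_left _ _).trans hn)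
  have hn0 : (0 : ℝ) < n := by linarith
  have hlog2 : 2 ≤ Real.log n := by
    rw [Real.le_log_iff_exp_le hn0]
    have : Real.exp 2 ≤ 12 := by
      have h1 : Real.exp 2 = Real.exp 1 ^ 2 := by rw [← Real.exp_nat_mul]; norm_num
      rw [h1]
      have h2 := Real.exp_one_lt_d9
      have h3 := Real.exp_pos 1
      nlinarith
    linarith
  set L := Real.log n with hL
  have hY1 := (abs_le.1 hY).1
  have hY2 := (abs_le.1 hY).2
  have hY0 : 0 < Y := by linarith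
  set h₁ := Real.exp ((1 / 2 - η) * Y) with hh₁
  have hh₁0 : 0 < h₁ := Real.exp_pos _
  have hh1n : 2 * h₁ ≤ h := by
    have e1 : h₁ ≤ Real.exp (3 / 20) * (n : ℝ) ^ (1 - 2 * η) := by
      rw [Real.rpow_def_of_pos hn0, ← Real.exp_add, ← hL]
      apply Real.exp_le_exp.2
      nlinarith
    have e2 : Real.exp (3 / 20) ≤ 2 := by
      have h2 : Real.exp (3 / 20) ≤ Real.exp (Real.log 2) := by
        apply Real.exp_le_exp.2
        have := Real.log_two_gt_d9
        linarith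
      rwa [Real.exp_log (by norm_num)] at h2
    have e3 : (n : ℝ) ^ (1 - 2 * η) * (n : ℝ) ^ η = (n : ℝ) ^ (1 - η) := by
      rw [← Real.rpow_add hn0]; congr 1; ring
    have e4 : (0 : ℝ) < (n : ℝ) ^ (1 - 2 * η) := Real.rpow_pos_of_pos hn0 _
    calc 2 * h₁ ≤ 2 * (Real.exp (3 / 20) * (n : ℝ) ^ (1 - 2 * η)) := by gcongr
      _ ≤ 2 * (2 * (n : ℝ) ^ (1 - 2 * η)) := by gcongr
      _ = (n : ℝ) ^ (1 - 2 * η) * 4 := by ring
      _ ≤ (n : ℝ) ^ (1 - 2 * η) * (n : ℝ) ^ η := by gcongr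
      _ = (n : ℝ) ^ (1 - η) := e3
      _ ≤ h := hh
  by_contra hcon
  push Not at hcon
  set m := ⌊(h : ℝ) / h₁⌋₊ with hm
  have hm1 : (m : ℝ) * h₁ ≤ h := by
    have := Nat.floor_le (a := (h : ℝ) / h₁) (by positivity)
    rw [← hm] at this
    calc (m : ℝ) * h₁ ≤ (h : ℝ) / h₁ * h₁ := by gcongr
      _ = h := by field_simp
  have hm2 : (h : ℝ) ≤ 2 * (m * h₁) := by
    have := Nat.lt_floor_add_one ((h : ℝ) / h₁)
    rw [← hm, div_lt_iff₀ hh₁0] at this
    nlinarith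
  have hy' : (n : ℝ) ^ 2 - n ≤ y := by
    have : ((n ^ 2 : ℕ) : ℝ) ≤ ((y + n : ℕ) : ℝ) := by exact_mod_cast hy
    push_cast at this
    linarith
  have hyh' : (y : ℝ) + h ≤ (n : ℝ) ^ 2 + n := by exact_mod_cast hyh
  have hall : ∀ i < m, c₀ * h₁ / Y ≤ pic (y + i * h₁) h₁ := by
    intro i hi
    have hi0 : (0 : ℝ) ≤ i := Nat.cast_nonneg _
    have hi1 : ((i : ℝ) + 1) * h₁ ≤ m * h₁ := by
      have : ((i + 1 : ℕ) : ℝ) ≤ (m : ℝ) := by exact_mod_cast hi
      push_cast at this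
      gcongr
    apply hcon
    · have : 0 ≤ (i : ℝ) * h₁ := by positivity
      linarith
    · nlinarith
  have h7 := pieces y h h₁ _ hh₁0 m hm1 hall
  have h8 : c₀ / 6 * (h / L) ≤ (m : ℝ) * (c₀ * h₁ / Y) := by
    have hY3 : Y ≤ 3 * L := by linarith
    have hL0 : 0 < L := by linarith
    calc c₀ / 6 * (h / L) ≤ c₀ / 6 * (2 * (m * h₁) / L) := by gcongr
      _ = m * (c₀ * h₁ / (3 * L)) := by field_simp; ring
      _ ≤ m * (c₀ * h₁ / Y) := by gcongr
  linarith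

/-- few integers with a poor subinterval at one scale -/
theorem one_scale (hM : MAINP (1 / 2) 0.306) : ∃ c η Y₀ : ℝ, 0 < c ∧ 0 < η ∧ η ≤ 1 / 10 ∧
    ∀ Y : ℝ, Y₀ ≤ Y → ∀ S : Finset ℕ, (∀ n ∈ S, |2 * Real.log n - Y| ≤ 3 / 10 ∧ Poor c η n) →
      (S.card : ℝ) ≤ Real.exp ((0.306 - η) * Y) := by
  obtain ⟨c₀, η₀, Y₀, hc₀, hη₀, H⟩ := hM
  set η := min η₀ (1 / 10) with hη
  have hη0 : 0 < η := lt_min hη₀ (by norm_num)
  have hη1 : η ≤ 1 / 10 := min_le_right _ _
  have hηη : η ≤ η₀ := min_le_left _ _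
  obtain ⟨n₀, hn₀⟩ := poor_piece hc₀ hη0 hη1
  refine ⟨c₀ / 6, η, max (max Y₀ 1) (2 * Real.log (max n₀ 12) + 1), by positivity, hη0, hη1,
    fun Y hY S hS => ?_⟩
  have hY0 : Y₀ ≤ Y := ((le_max_left _ _).trans (le_max_left _ _)).trans hY
  have hY1 : 1 ≤ Y := ((le_max_right _ _).trans (le_max_left _ _)).trans hY
  have hY2 : 2 * Real.log (max n₀ 12) + 1 ≤ Y := (le_max_right _ _).trans hY
  have hbig : ∀ n ∈ S, max n₀ 12 ≤ n := by
    intro n hn
    by_contra hcon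
    push Not at hcon
    have h1 := (abs_le.1 (hS n hn).1).1
    rcases Nat.eq_zero_or_pos n with h0 | h0
    · rw [h0] at h1
      simp at h1
      have : (0 : ℝ) ≤ Real.log (max (n₀ : ℝ) 12) := Real.log_nonneg (by
        have := le_max_right (n₀ : ℝ) 12
        linarith)
      linarith
    · have h2 : Real.log n ≤ Real.log (max (n₀ : ℝ) 12) := by
        apply Real.log_le_log (by exact_mod_cast h0)
        have : (n : ℝ) ≤ ((max n₀ 12 : ℕ) : ℝ) := by exact_mod_cast hcon.le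
        simpa using this
      linarith
  set h₁ := Real.exp ((1 / 2 - η) * Y) with hh₁
  have hh₁0 : 0 < h₁ := Real.exp_pos _
  have hch : ∀ n : ℕ, ∃ x : ℝ, n ∈ S → (n : ℝ) ^ 2 - n ≤ x ∧ x + h₁ ≤ (n : ℝ) ^ 2 + n ∧
      (pic x h₁ : ℝ) < c₀ * h₁ / Y := by
    intro n
    by_cases hn : n ∈ S
    · obtain ⟨x, hx⟩ := hn₀ n ((le_max_left _ _).trans (hbig n hn)) Y (hS n hn).1 (hS n hn).2
      exact ⟨x, fun _ => hx⟩
    · exact ⟨0, fun h => absurd h hn⟩
  choose f hf using hch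
  have hsep : ∀ n ∈ S, ∀ m ∈ S, n < m → f n + h₁ ≤ f m := by
    intro n hn m hm hnm
    have h1 := (hf n hn).2.1
    have h2 := (hf m hm).1
    have h3 : (n : ℝ) + 1 ≤ m := by exact_mod_cast hnm
    have h4 : (0 : ℝ) ≤ n := Nat.cast_nonneg _
    nlinarith
  have hinj : Set.InjOn f S := by
    intro n hn m hm h
    rcases lt_trichotomy n m with h1 | h1 | h1
    · have := hsep n hn m hm h1; rw [h] at this; linarith
    · exact h1
    · have := hsep m hm n hn h1; rw [h] at this; linarith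
  have h1 := H Y hY0 h₁ (Real.exp_le_exp.2 (by nlinarith)) (Real.exp_le_exp.2 (by nlinarith))
    (S.image f) (fun x hx => by
      obtain ⟨n, hn, rfl⟩ := mem_image.1 hx
      have h2 := hf n hn
      have h3 := logs ((le_max_right _ _).trans (hbig n hn)) h2.1 (by linarith)
      refine ⟨h3.1, ?_, h2.2.2⟩
      have h4 := (hS n hn).1
      calc |Real.log (f n) - Y| ≤ |Real.log (f n) - 2 * Real.log n| + |2 * Real.log n - Y| :=
            abs_sub_le _ _ _
        _ ≤ 1 / 10 + 3 / 10 := add_le_add h3.2 h4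
        _ = 2 / 5 := by norm_num)
    (fun x hx x' hx' hne => by
      obtain ⟨n, hn, rfl⟩ := mem_image.1 hx
      obtain ⟨m, hm, rfl⟩ := mem_image.1 hx'
      rcases lt_trichotomy n m with h5 | h5 | h5
      · have := hsep n hn m hm h5
        rw [abs_sub_comm]
        exact (by linarith : h₁ ≤ f m - f n).trans (le_abs_self _)
      · exact absurd (by rw [h5]) hne
      · have := hsep m hm n hn h5
        exact (by linarith : h₁ ≤ f n - f m).trans (le_abs_self _))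
  rw [card_image_of_injOn hinj] at h1
  refine h1.trans (Real.exp_le_exp.2 ?_)
  nlinarith

/-- **few integers with a poor subinterval** -/
theorem few_poor (hM : MAINP (1 / 2) 0.306) : ∃ c η : ℝ, 0 < c ∧ 0 < η ∧ η ≤ 1 / 10 ∧
    ∀ᶠ N : ℕ in atTop, (({n : ℕ | Poor c η n} ∩ Set.Icc 1 N).ncard : ℝ) ≤ (N : ℝ) ^ (0.612 - η) := by
  obtain ⟨c, η, Y₀, hc, hη, hη1, H⟩ := one_scale hM
  refine ⟨c, η, hc, hη, hη1, ?_⟩
  obtain ⟨n₁, hn₁⟩ := exists_nat_ge (Real.exp ((Y₀ + 1) / 2))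
  have hlim : ∀ᶠ N : ℕ in atTop, (n₁ : ℝ) + 1 + (4 * Real.log N + 3) * (N : ℝ) ^ (0.612 - 2 * η) ≤
      (N : ℝ) ^ (0.612 - η) := by
    have ht : Tendsto (fun N : ℕ => (N : ℝ)) atTop atTop := tendsto_natCast_atTop_atTop
    have h1 : ∀ᶠ N : ℕ in atTop, 4 * Real.log N + 3 ≤ (N : ℝ) ^ η / 2 := by
      have e1 : Tendsto (fun x : ℝ => Real.log x / x ^ η) atTop (nhds 0) :=
        (isLittleO_log_rpow_atTop hη).tendsto_div_nhds_zero
      have e2 : Tendsto (fun x : ℝ => x ^ η) atTop atTop := tendsto_rpow_atTop hη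
      have e3 : ∀ᶠ x : ℝ in atTop, Real.log x / x ^ η < 1 / 16 :=
        e1.eventually_lt_const (by norm_num)
      have e4 : ∀ᶠ x : ℝ in atTop, 12 ≤ x ^ η := e2.eventually_ge_atTop 12
      have e5 : ∀ᶠ x : ℝ in atTop, 4 * Real.log x + 3 ≤ x ^ η / 2 := by
        filter_upwards [e3, e4, eventually_gt_atTop 0] with x h3 h4 h5
        have h6 : 0 < x ^ η := Real.rpow_pos_of_pos h5 _
        rw [div_lt_iff₀ h6] at h3
        linarith
      exact ht.eventually e5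
    have h2 : ∀ᶠ N : ℕ in atTop, 2 * ((n₁ : ℝ) + 1) ≤ (N : ℝ) ^ (0.612 - η) :=
      ((tendsto_rpow_atTop (by linarith)).comp ht).eventually_ge_atTop _
    filter_upwards [h1, h2, eventually_gt_atTop 0] with N h3 h4 h5
    have h5' : (0 : ℝ) < N := by exact_mod_cast h5
    have h6 : (N : ℝ) ^ (0.612 - 2 * η) * (N : ℝ) ^ η = (N : ℝ) ^ (0.612 - η) := by
      rw [← Real.rpow_add h5']; congr 1; ring
    have h7 : 0 < (N : ℝ) ^ (0.612 - 2 * η) := Real.rpow_pos_of_pos h5' _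
    nlinarith
  filter_upwards [hlim, eventually_ge_atTop 2] with N hN hN2
  classical
  have hN2' : (2 : ℝ) ≤ N := by exact_mod_cast hN2
  have hN0 : (0 : ℝ) < N := by linarith
  have hlogN : 0 ≤ Real.log N := Real.log_nonneg (by linarith)
  set J := ⌊4 * Real.log N + 2⌋₊ + 1 with hJ
  set T : ℕ → Finset ℕ := fun j => ((Icc 1 N).filter (fun n => n₁ < n ∧ Poor c η n ∧
    |2 * Real.log n - (2 * Real.log N - 3 / 5 * j)| ≤ 3 / 10)) with hT
  have hcover : {n : ℕ | Poor c η n} ∩ Set.Icc 1 N ⊆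
      ((Icc 1 n₁ ∪ (range J).biUnion T : Finset ℕ) : Set ℕ) := by
    rintro n ⟨hn1, hn2⟩
    rw [Set.mem_Icc] at hn2
    rw [Finset.mem_coe, mem_union, mem_biUnion]
    rcases Nat.lt_or_ge n₁ n with h0 | h0
    · right
      have hn0 : (0 : ℝ) < n := by exact_mod_cast hn2.1
      have hnN : Real.log n ≤ Real.log N := Real.log_le_log hn0 (by exact_mod_cast hn2.2)
      have hn3 : 0 ≤ Real.log n := Real.log_natCast_nonneg n
      set t := (2 * Real.log N - 2 * Real.log n) / (3 / 5) + 1 / 2 with ht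
      have ht0 : 0 ≤ t := by rw [ht]; have : 0 ≤ (2 * Real.log N - 2 * Real.log n) / (3 / 5) := by
                                  apply div_nonneg <;> linarith
                             linarith
      have h1 := Nat.floor_le ht0
      have h2 := Nat.lt_floor_add_one t
      refine ⟨⌊t⌋₊, ?_, ?_⟩
      · rw [mem_range, hJ]
        apply Nat.lt_succ_of_le
        apply Nat.floor_mono
        rw [ht]
        have : (2 * Real.log N - 2 * Real.log n) / (3 / 5) ≤ 4 * Real.log N := by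
          rw [div_le_iff₀ (by norm_num)]; linarith
        linarith
      · rw [hT]
        simp only [mem_filter, mem_Icc]
        refine ⟨hn2, h0, hn1, ?_⟩
        rw [abs_le]
        constructor <;> linarith
    · left
      rw [mem_Icc]; exact ⟨hn2.1, h0⟩
  have hTc : ∀ j ∈ range J, ((T j).card : ℝ) ≤ (N : ℝ) ^ (0.612 - 2 * η) := by
    intro j _
    by_cases hne : (T j).Nonempty
    · obtain ⟨n, hn⟩ := hne
      have hn' := hn
      rw [hT] at hn'
      simp only [mem_filter, mem_Icc] at hn'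
      obtain ⟨⟨hn1, hnN⟩, hn2, hn3, hn4⟩ := hn'
      have hn0 : (0 : ℝ) < n := by exact_mod_cast hn1
      have h1 : (Y₀ + 1) / 2 ≤ Real.log n := by
        rw [Real.le_log_iff_exp_le hn0]
        refine hn₁.trans ?_
        exact_mod_cast hn2.le
      have h2 := (abs_le.1 hn4).2
      have h3 := H (2 * Real.log N - 3 / 5 * j) (by linarith) (T j) (fun m hm => by
        rw [hT] at hm
        simp only [mem_filter, mem_Icc] at hm
        exact ⟨hm.2.2.2, hm.2.2.1⟩)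
      refine h3.trans ?_
      rw [Real.rpow_def_of_pos hN0]
      apply Real.exp_le_exp.2
      have h4 : (0 : ℝ) ≤ j := Nat.cast_nonneg _
      nlinarith
    · rw [not_nonempty_iff_eq_empty.1 hne]
      simp only [card_empty, Nat.cast_zero]
      positivity
  have h1 : ({n : ℕ | Poor c η n} ∩ Set.Icc 1 N).ncard ≤
      (Icc 1 n₁ ∪ (range J).biUnion T : Finset ℕ).card := by
    rw [← Set.ncard_coe_finset]
    exact Set.ncard_le_ncard hcover (Finset.finite_toSet _)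
  have h2 : ((Icc 1 n₁ ∪ (range J).biUnion T : Finset ℕ).card : ℝ) ≤
      n₁ + J * (N : ℝ) ^ (0.612 - 2 * η) := by
    have h3 : (Icc 1 n₁ ∪ (range J).biUnion T : Finset ℕ).card ≤
        (Icc 1 n₁).card + ∑ j ∈ range J, (T j).card :=
      (card_union_le _ _).trans (Nat.add_le_add_left card_biUnion_le _)
    have h4 : ((Icc 1 n₁).card : ℝ) = n₁ := by simp
    have h5 : ∑ j ∈ range J, ((T j).card : ℝ) ≤ J * (N : ℝ) ^ (0.612 - 2 * η) := by
      refine (sum_le_card_nsmul _ _ _ hTc).trans ?_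
      simp
    calc ((Icc 1 n₁ ∪ (range J).biUnion T : Finset ℕ).card : ℝ)
        ≤ (((Icc 1 n₁).card + ∑ j ∈ range J, (T j).card : ℕ) : ℝ) := by exact_mod_cast h3
      _ = n₁ + ∑ j ∈ range J, ((T j).card : ℝ) := by push_cast; rw [h4]
      _ ≤ _ := by linarith
  have h3 : (J : ℝ) ≤ 4 * Real.log N + 3 := by
    rw [hJ]
    push_cast
    have := Nat.floor_le (a := 4 * Real.log N + 2) (by linarith)
    linarith
  have h4 : (0 : ℝ) < (N : ℝ) ^ (0.612 - 2 * η) := Real.rpow_pos_of_pos hN0 _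
  calc (({n : ℕ | Poor c η n} ∩ Set.Icc 1 N).ncard : ℝ)
      ≤ ((Icc 1 n₁ ∪ (range J).biUnion T : Finset ℕ).card : ℝ) := by exact_mod_cast h1
    _ ≤ n₁ + J * (N : ℝ) ^ (0.612 - 2 * η) := h2
    _ ≤ n₁ + (4 * Real.log N + 3) * (N : ℝ) ^ (0.612 - 2 * η) := by gcongr
    _ ≤ (N : ℝ) ^ (0.612 - η) := by linarith

end Pool.Agent.V8H4.OP
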