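import Pool.Agent.Y677.RSZ.Stm
import Pool.Agent.V8H4.SH.Turan
import Pool.Agent.V8H4.OP.Defs

/-!
# Narrow progressions of primes in short intervals around squares

The primes of `(y, y + h]` that are in no narrow `k`-term progression of primes of this interval, from
Szemerédi's theorem relative to sifted sets (`Pool.Agent.Y677.RSZ`).
-/

set_option autoImplicit false

open Finset Filter

namespace Pool.Agent.V8H4.OP

open Pool.Agent.Y677.RSZ
open Pool.Agent.TH423.SH (PS)

/-- the identity -/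
def idF : ℤ → ℤ := fun n => n

theorem rt_id {p : ℕ} (hp : p.Prime) : rt idF p = 1 := by
  unfold rt idF
  have e : (range p).filter (fun r : ℕ => (p : ℤ) ∣ (r : ℤ)) = {0} := by
    ext r
    simp only [mem_filter, mem_range, mem_singleton]
    constructor
    · rintro ⟨h1, h2⟩
      have h3 : p ∣ r := by exact_mod_cast h2
      exact Nat.eq_zero_of_dvd_of_lt h3 h1
    · rintro rfl
      exact ⟨hp.pos, by simp⟩
  rw [e, card_singleton]

theorem sys_id : Sys 5 idF where
  per := fun p _ n => by simp [idF]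
  root := fun p hp => by
    rw [rt_id hp]
    exact ⟨by norm_num, hp.one_lt⟩
  coll := ⟨fun h => h, fun h hh => ⟨(by omega : 1 ≤ h), Nat.le_self_pow (by norm_num) h,
    fun p _ n h1 h2 => by
      have h3 : (p : ℤ) ∣ (h : ℤ) := by
        have := dvd_sub h2 h1
        simpa [idF] using this
      exact_mod_cast h3⟩⟩

theorem V_le : ∃ C : ℝ, 0 < C ∧ ∀ H : ℕ, 2 ≤ H → V idF 1 H ≤ C / Real.log H := by
  obtain ⟨C, hC0, hC⟩ := Pool.Agent.V8H4.SH.mertens
  refine ⟨Real.exp C, Real.exp_pos _, fun H hH => ?_⟩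
  have hH' : (2 : ℝ) ≤ H := by exact_mod_cast hH
  have hlog : 0 < Real.log H := Real.log_pos (by linarith)
  have hPS : PS 1 H = Pool.Agent.V8H4.SH.PN H := by
    ext p
    simp only [PS, Pool.Agent.V8H4.SH.PN, mem_filter, mem_Icc]
    constructor
    · rintro ⟨h1, h2, _⟩; exact ⟨h1, h2⟩
    · rintro ⟨h1, h2⟩
      refine ⟨h1, h2, fun h3 => ?_⟩
      exact h2.one_lt.ne' (Nat.dvd_one.1 h3)
  have h1 : V idF 1 H ≤ Real.exp (-∑ p ∈ Pool.Agent.V8H4.SH.PN H, (1 : ℝ) / p) := by
    unfold V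
    rw [hPS, ← sum_neg_distrib, Real.exp_sum]
    apply Finset.prod_le_prod
    · intro p hp
      have hp' : p.Prime := (mem_filter.1 hp).2
      rw [rt_id hp']
      have h2 : (2 : ℝ) ≤ p := by exact_mod_cast hp'.two_le
      rw [sub_nonneg, div_le_one (by linarith)]
      push_cast
      linarith
    · intro p hp
      have hp' : p.Prime := (mem_filter.1 hp).2
      rw [rt_id hp']
      have := Real.add_one_le_exp (-(1 / (p : ℝ)))
      push_cast
      linarith
  have h2 := (abs_le.1 (hC H hH)).1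
  calc V idF 1 H ≤ Real.exp (-∑ p ∈ Pool.Agent.V8H4.SH.PN H, (1 : ℝ) / p) := h1
    _ ≤ Real.exp (C - Real.log (Real.log H)) := by
        apply Real.exp_le_exp.2
        linarith
    _ = Real.exp C / Real.log H := by
        rw [Real.exp_sub, Real.exp_log hlog]

open Classical in
/-- **all but few primes are in narrow progressions**, for every subinterval -/
theorem prog (hE : S_ENG) (k : ℕ) (ε : ℝ) (hk : 2 ≤ k) (hε : 0 < ε) :
    ∃ B n₀ : ℕ, ∀ n : ℕ, n₀ ≤ n → ∀ y h : ℕ, Real.sqrt n ≤ h → n ^ 2 ≤ y + n →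
      y + h ≤ n ^ 2 + n →
      (((primesIn y h).filter (fun p => ¬ InProg k (Real.log n ^ B) y h p)).card : ℝ) ≤
        ε * (h / Real.log n) := by
  obtain ⟨C, hC0, hC⟩ := V_le
  obtain ⟨B, H₀, hB⟩ := hE k 5 (1 / 2) (ε / (2 * C)) hk (by norm_num) (by positivity)
  obtain ⟨n₁, hn₁⟩ := exists_nat_ge (Real.exp (2 ^ B))
  refine ⟨B + 1, max (max (H₀ ^ 2) n₁) 16, fun n hn y h hh hy hyh => ?_⟩
  have hn16 : 16 ≤ n := (le_max_right _ _).trans hn
  have hnH : H₀ ^ 2 ≤ n := ((le_max_left _ _).trans (le_max_left _ _)).trans hn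
  have hnn : n₁ ≤ n := ((le_max_right _ _).trans (le_max_left _ _)).trans hn
  have hn16' : (16 : ℝ) ≤ n := by exact_mod_cast hn16
  have hsq : (0 : ℝ) ≤ Real.sqrt n := Real.sqrt_nonneg _
  have hsq2 : Real.sqrt n ^ 2 = n := Real.sq_sqrt (by linarith)
  have hh4 : (4 : ℝ) ≤ h := by
    have : (4 : ℝ) ≤ Real.sqrt n := by
      apply Real.le_sqrt_of_sq_le; linarith
    linarith
  have hh4' : 4 ≤ h := by exact_mod_cast hh4
  have hnh2 : (n : ℝ) ≤ (h : ℝ) ^ 2 := by
    rw [← hsq2]; exact pow_le_pow_left₀ hsq hh 2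
  have hnh2' : n ≤ h ^ 2 := by exact_mod_cast hnh2
  have hhn : h ≤ 2 * n := by
    have : y + h ≤ n ^ 2 + n := hyh
    omega
  have hH0h : H₀ ≤ h := by
    have : H₀ ^ 2 ≤ h ^ 2 := hnH.trans hnh2'
    exact (Nat.pow_le_pow_iff_left (by norm_num)).1 this
  have hlogn : 0 < Real.log n := Real.log_pos (by linarith)
  have hlogh : Real.log n / 2 ≤ Real.log h := by
    have h1 : Real.log n ≤ Real.log ((h : ℝ) ^ 2) := Real.log_le_log (by linarith) hnh2
    rw [Real.log_pow] at h1
    push_cast at h1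
    linarith
  have hlogh0 : 0 < Real.log h := by linarith
  by_contra hcon
  push Not at hcon
  set A := (primesIn y h).filter (fun p => ¬ InProg k (Real.log n ^ (B + 1)) y h p) with hA
  have hn2 : n ^ 2 ≤ y + n := hy
  have hyn : n ≤ y := by nlinarith
  have hAP : ∀ m ∈ A, m.Prime ∧ y < m ∧ m ≤ y + h := by
    intro m hm
    rw [hA, mem_filter, primesIn, mem_filter, mem_Ioc] at hm
    exact ⟨hm.1.2, hm.1.1.1, hm.1.1.2⟩
  have hVh : V idF 1 h ≤ 2 * C / Real.log n := by
    refine (hC h (by omega)).trans ?_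
    rw [div_le_div_iff₀ hlogh0 hlogn]
    nlinarith
  obtain ⟨a, d, hd1, hd2, hprog⟩ := hB idF y h A sys_id hH0h (fun m hm => by
      rw [mem_Ioc] at hm
      refine ⟨?_, ?_⟩
      · simp only [idF]
        have : 0 < m := by omega
        exact_mod_cast this.ne'
      · simp only [idF]
        rw [abs_of_nonneg (by positivity)]
        have h1 : m ≤ 2 * n ^ 2 := by
          have : m ≤ n ^ 2 + n := hm.2.trans hyh
          nlinarith
        have h2 : 2 * n ^ 2 ≤ h ^ 5 := by
          calc 2 * n ^ 2 ≤ h * (h ^ 2) ^ 2 := Nat.mul_le_mul (by omega) (Nat.pow_le_pow_left hnh2' 2)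
            _ = h ^ 5 := by ring
        exact_mod_cast h1.trans h2)
    (fun m hm => by
      have := hAP m hm
      rw [mem_Ioc]; exact this.2)
    (fun m hm q hq hqh hdvd => by
      have h1 := hAP m hm
      have h2 : q ∣ m := by
        simp only [idF] at hdvd
        exact_mod_cast hdvd
      have h3 : q = m := (Nat.prime_dvd_prime_iff_eq hq h1.1).1 h2
      have h4 : (h : ℝ) ^ ((1 : ℝ) / 2) = Real.sqrt h := (Real.sqrt_eq_rpow _).symm
      rw [h4] at hqh
      have h5 : Real.sqrt h ≤ n := by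
        rw [Real.sqrt_le_left (by linarith)]
        have : (h : ℝ) ≤ 2 * n := by exact_mod_cast hhn
        nlinarith
      have h6 : (q : ℝ) ≤ n := hqh.trans h5
      have h7 : q ≤ n := by exact_mod_cast h6
      omega)
    (by
      calc ε / (2 * C) * (h * V idF 1 h) ≤ ε / (2 * C) * (h * (2 * C / Real.log n)) := by gcongr
        _ = ε * (h / Real.log n) := by field_simp
        _ ≤ A.card := hcon.le)
  have ha : a ∈ A := by
    have := hprog 0 (by omega)
    simpa using this
  have hnot : ¬ InProg k (Real.log n ^ (B + 1)) y h a := (mem_filter.1 ha).2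
  apply hnot
  refine ⟨a, d, hd1, ?_, fun i hi => (mem_filter.1 (hprog i hi)).1, 0, by omega, by simp⟩
  have hlog2 : Real.log h ≤ 2 * Real.log n := by
    have h1 : (h : ℝ) ≤ (n : ℝ) ^ 2 := by
      have : (h : ℝ) ≤ 2 * n := by exact_mod_cast hhn
      nlinarith
    have h2 := Real.log_le_log (by linarith) h1
    rw [Real.log_pow] at h2
    push_cast at h2
    linarith
  have hlogB : (2 : ℝ) ^ B ≤ Real.log n := by
    rw [Real.le_log_iff_exp_le (by linarith)]
    refine hn₁.trans ?_
    exact_mod_cast hnn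
  calc (d : ℝ) ≤ Real.log h ^ B := hd2
    _ ≤ (2 * Real.log n) ^ B := pow_le_pow_left₀ hlogh0.le hlog2 B
    _ = 2 ^ B * Real.log n ^ B := by rw [mul_pow]
    _ ≤ Real.log n * Real.log n ^ B := by gcongr
    _ = Real.log n ^ (B + 1) := by ring

end Pool.Agent.V8H4.OP
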