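import Pool.Agent.N251.LF.RealPoint

/-!
# Thin sets of integers near the values of generic linear forms, one exceptional set for all thresholds
-/

set_option autoImplicit false

open Finset Filter

namespace Pool.Agent.V8H4.OP

open Pool.Agent.N251.LF (Fam linear_real)

/-- Let `S` have at most `N ^ s` elements up to `N` for large `N`. For all `α` outside a set of dimension at
most `K - 1 + (s + τ) / (1 - θ)`, all `w` and `n₀`, for all but finitely many `i` all positive integers `n`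
within `w ‖v i‖ ^ θ` of `∑ α_j v_(i,j)` are at least `n₀` and outside `S`. -/
theorem near_forms (S : Set ℕ) {s : ℝ} (hs : 0 ≤ s)
    (hS : ∀ᶠ N : ℕ in atTop, ((S ∩ Set.Icc 1 N).ncard : ℝ) ≤ (N : ℝ) ^ s)
    {ι : Type} {K : ℕ} (v : ι → Fin K → ℝ) {τ θ : ℝ}
    (hτ : 0 ≤ τ) (hθ0 : 0 ≤ θ) (hθ : θ < 1) (hv : Fam v τ) :
    ∃ E : Set (Fin K → ℝ), dimH E ≤ ENNReal.ofReal ((K : ℝ) - 1 + (s + τ) / (1 - θ)) ∧
      ∀ α, α ∉ E → ∀ (w : ℝ) (n₀ : ℕ),
        {i | ¬ ∀ n : ℕ, 0 < n → |(n : ℝ) - ∑ j, α j * v i j| ≤ w * ‖v i‖ ^ θ →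
          n₀ ≤ n ∧ n ∉ S}.Finite := by
  have hS' : ∀ ε : ℝ, 0 < ε → ∃ C : ℝ, ∀ X : ℕ, 1 ≤ X →
      ∃ F : Finset ℕ, (∀ m : ℕ, m ≤ X → m ∈ S → m ∈ F) ∧ (F.card : ℝ) ≤ C * (X : ℝ) ^ (s + ε) := by
    intro ε hε
    obtain ⟨X₀, hX₀⟩ := eventually_atTop.1 hS
    refine ⟨X₀ + 2, fun X hX => ?_⟩
    have hX1 : (1 : ℝ) ≤ X := by exact_mod_cast hX
    have h5 : (1 : ℝ) ≤ (X : ℝ) ^ (s + ε) := Real.one_le_rpow hX1 (by linarith)
    rcases le_or_gt X₀ X with h | h
    · have hfin : (S ∩ Set.Icc 1 X).Finite := (Set.finite_Icc 1 X).subset Set.inter_subset_right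
      refine ⟨insert 0 hfin.toFinset, ?_, ?_⟩
      · intro m hm hmS
        rw [mem_insert, Set.Finite.mem_toFinset]
        rcases Nat.eq_zero_or_pos m with h0 | h0
        · exact Or.inl h0
        · exact Or.inr ⟨hmS, h0, hm⟩
      · have h1 := hX₀ X h
        have h2 : ((insert 0 hfin.toFinset).card : ℝ) ≤ (S ∩ Set.Icc 1 X).ncard + 1 := by
          rw [Set.ncard_eq_toFinset_card _ hfin]
          exact_mod_cast card_insert_le _ _
        have h3 : (X : ℝ) ^ s ≤ (X : ℝ) ^ (s + ε) :=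
          Real.rpow_le_rpow_of_exponent_le hX1 (by linarith)
        have h4 : (0 : ℝ) ≤ X₀ := Nat.cast_nonneg _
        nlinarith
    · refine ⟨range (X₀ + 1), fun m hm _ => by rw [mem_range]; omega, ?_⟩
      rw [card_range]
      push_cast
      have h4 : (0 : ℝ) ≤ X₀ := Nat.cast_nonneg _
      nlinarith
  choose E hE hE2 using fun m : ℕ => linear_real S (m : ℝ) v hs hτ hθ0 hθ hv hS'
  refine ⟨⋃ m, E m, ?_, fun α hα w n₀ => ?_⟩
  · rw [dimH_iUnion]
    exact iSup_le hE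
  · have hα' : α ∉ E n₀ := fun h => hα (Set.mem_iUnion.2 ⟨n₀, h⟩)
    refine (hE2 n₀ α hα' w).subset fun i hi hcon => hi fun n hn hnw => ?_
    obtain ⟨h1, h2⟩ := hcon (n : ℝ) (by exact_mod_cast hn) hnw
    rw [Nat.floor_natCast] at h2
    exact ⟨by exact_mod_cast h1, h2⟩

open MeasureTheory in
/-- sets of dimension less than `d` in `ℝ^d` are null sets -/
theorem null_of_dimH {d : ℕ} {E : Set (Fin d → ℝ)} (h : dimH E < (d : ℕ)) : volume E = 0 := by
  have h3 : (MeasureTheory.Measure.hausdorffMeasure ((d : ℕ) : ℝ)) E = 0 := by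
    have := hausdorffMeasure_of_dimH_lt (s := E) (d := ((d : ℕ) : NNReal)) (by simpa using h)
    simpa using this
  rw [← hausdorffMeasure_pi_real, Fintype.card_fin]
  exact h3

theorem tendsto_div_log : Tendsto (fun n : ℕ => (n : ℝ) / Real.log n) atTop atTop := by
  have h1 : Tendsto (fun n : ℕ => (n : ℝ) ^ (1 / 2 : ℝ) / 2) atTop atTop :=
    ((tendsto_rpow_atTop (by norm_num : (0 : ℝ) < 1 / 2)).comp
      tendsto_natCast_atTop_atTop).atTop_div_const (by norm_num)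
  refine tendsto_atTop_mono' _ ?_ h1
  filter_upwards [eventually_ge_atTop 2] with n hn
  have hn2 : (2 : ℝ) ≤ n := by exact_mod_cast hn
  have hlog : 0 < Real.log n := Real.log_pos (by linarith)
  rw [le_div_iff₀ hlog]
  have h2 := Real.log_le_rpow_div (x := n) (by linarith) (by norm_num : (0 : ℝ) < 1 / 2)
  have h3 : (n : ℝ) ^ (1 / 2 : ℝ) * (n : ℝ) ^ (1 / 2 : ℝ) = n := by
    rw [← Real.rpow_add (by linarith)]
    norm_num
  have h4 : (0 : ℝ) ≤ (n : ℝ) ^ (1 / 2 : ℝ) := by positivity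
  nlinarith

end Pool.Agent.V8H4.OP
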